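import Pool.Agent.Helper46.NU.Names

namespace NU.PkEX2

open Pool.Agent.Helper97.Ku

theorem ex2 (ex1 : G_EX1) (exj : G_EXJ) : G_EX2 := by
  intro L _
  obtain ⟨h1, h2, h3, h4, h5⟩ := ex1 L
  have hcodeK : ∀ a b : BSet L, BSet.Ext (fun x => codeV a x b) := by
    intro a b
    unfold codeV
    refine BSet.Ext.inf (BSet.Ext.const _) (BSet.Ext.inf (BSet.Ext.const _) (BSet.Ext.inf ?_ ?_))
    · refine BSet.Ext.iInf fun n => BSet.Ext.iInf fun t => ?_
      exact BSet.Ext.himp (BSet.Ext.inf (BSet.Ext.const _)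
        (BSet.Ext.inf (BSet.Ext.mem_right n) (BSet.Ext.const _))) (BSet.Ext.const _)
    · refine BSet.Ext.iInf fun n => ?_
      refine BSet.Ext.himp (BSet.Ext.inf (BSet.Ext.const _)
        (BSet.Ext.compl (BSet.Ext.mem_right n))) ?_
      exact exj L (fun _ t => t.mem b ⊓ lstV t n)
        (fun x u => subV u n ⊓ ⨅ m : BSet L, (m.mem u ⇨ (m.mem x)ᶜ))
        (fun t => BSet.Ext.const _)
        (fun u => BSet.Ext.inf (BSet.Ext.const _) (BSet.Ext.iInf fun m =>
          BSet.Ext.himp (BSet.Ext.const _) (BSet.Ext.compl (BSet.Ext.mem_right m))))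
  have hcodeF : ∀ a b : BSet L, BSet.Ext (fun x => codeV a b x) := by
    intro a b
    unfold codeV
    refine BSet.Ext.inf ?_ (BSet.Ext.inf ?_ (BSet.Ext.inf ?_ ?_))
    · exact BSet.Ext.iInf fun t => BSet.Ext.himp (BSet.Ext.mem_right t) (BSet.Ext.const _)
    · refine BSet.Ext.iInf fun t => BSet.Ext.iInf fun t' => BSet.Ext.iInf fun n =>
        BSet.Ext.iInf fun n' => ?_
      exact BSet.Ext.himp (BSet.Ext.inf (BSet.Ext.mem_right t) (BSet.Ext.const _))
        (BSet.Ext.mem_right t')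
    · refine BSet.Ext.iInf fun n => BSet.Ext.iInf fun t => ?_
      exact BSet.Ext.himp (BSet.Ext.inf (BSet.Ext.const _)
        (BSet.Ext.inf (BSet.Ext.const _) (BSet.Ext.mem_right t))) (BSet.Ext.const _)
    · refine BSet.Ext.iInf fun n => ?_
      refine BSet.Ext.himp (BSet.Ext.const _) ?_
      exact exj L (fun x t => t.mem x ⊓ lstV t n)
        (fun _ u => subV u n ⊓ ⨅ m : BSet L, (m.mem u ⇨ (m.mem b)ᶜ))
        (fun t => BSet.Ext.inf (BSet.Ext.mem_right t) (BSet.Ext.const _))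
        (fun u => BSet.Ext.const _)
  have hcovL : ∀ a : BSet L, BSet.Ext (fun x => covV x a) := by
    intro a
    unfold covV
    refine BSet.Ext.iInf fun x => BSet.Ext.himp (BSet.Ext.const _) ?_
    refine BSet.Ext.iSup fun t => BSet.Ext.iSup fun n => ?_
    exact BSet.Ext.inf (BSet.Ext.mem_right t) (BSet.Ext.const _)
  have hcovR : ∀ a : BSet L, BSet.Ext (fun x => covV a x) := by
    intro a
    unfold covV
    exact BSet.Ext.iInf fun x => BSet.Ext.himp (BSet.Ext.mem_right x) (BSet.Ext.const _)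
  have hreals : ∀ a : BSet L, BSet.Ext (fun x => realsV a x) := by
    intro a
    unfold realsV
    exact BSet.Ext.iInf fun x => BSet.Ext.himp (BSet.Ext.mem_right x) (BSet.Ext.const _)
  have hnull : ∀ a : BSet L, BSet.Ext (fun x => nullV a x) := by
    intro a
    unfold nullV
    refine BSet.Ext.inf (hreals a) (BSet.Ext.iInf fun k => BSet.Ext.himp (BSet.Ext.const _) ?_)
    exact BSet.Ext.iSup fun F => BSet.Ext.inf (BSet.Ext.const _) (hcovR F)
  have hfam : ∀ a : BSet L, BSet.Ext (fun x => famV a x) := by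
    intro a
    unfold famV
    exact BSet.Ext.iInf fun x => BSet.Ext.himp (BSet.Ext.mem_right x) (BSet.Ext.const _)
  have hcr : ∀ a : BSet L, BSet.Ext (fun x => crV a x) := by
    intro a
    unfold crV
    exact BSet.Ext.iInf fun x => BSet.Ext.himp (BSet.Ext.const _)
      (BSet.Ext.iSup fun M => BSet.Ext.inf (BSet.Ext.mem_right M) (BSet.Ext.const _))
  exact ⟨fun a b => ⟨hcodeK a b, hcodeF a b⟩, fun a => ⟨hcovL a, hcovR a⟩,
    fun a => ⟨hreals a, hnull a, hfam a, hcr a⟩⟩

end NU.PkEX2
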